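import Pool.Agent.MP_86c931_ag.H56.RowsD

/-! Consequences of the existence of Darboux charts. -/

namespace Pool.Agent.MP_86c931_ag.H57

open Pool.Agent.MP_86c931_ag.H56

section general

variable {O : Type} [CommRing O] [Algebra ℂ O]

/-- chain rule -/
lemma der_aeval {τ : Type} [Fintype τ] [DecidableEq τ] (δ : Derivation ℂ O O) (y : τ → O)
    (p : MvPolynomial τ ℂ) :
    δ (MvPolynomial.aeval y p) =
      ∑ t, MvPolynomial.aeval y (MvPolynomial.pderiv t p) * δ (y t) := by
  induction p using MvPolynomial.induction_on with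
  | C c => simp
  | add p r hp hr => simp only [map_add, hp, hr, add_mul, Finset.sum_add_distrib]
  | mul_X p s hp =>
    rw [map_mul, MvPolynomial.aeval_X, Derivation.leibniz, hp, smul_eq_mul, smul_eq_mul,
      Finset.mul_sum]
    simp only [Derivation.leibniz, smul_eq_mul, map_add, map_mul, MvPolynomial.aeval_X, add_mul,
      Finset.sum_add_distrib, MvPolynomial.pderiv_X]
    congr 1
    · rw [Finset.sum_eq_single s]
      · simp
      · intro t _ ht
        simp [Pi.single_eq_of_ne ht.symm]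
      · simp
    · exact Finset.sum_congr rfl fun t _ => by ring

/-- the bracket in Darboux coordinates -/
lemma br_aeval {β : O → O → O} (h : IsPoisson β) {n : ℕ} (y : Fin n ⊕ Fin n → O)
    (h1 : ∀ i j, β (y (Sum.inl i)) (y (Sum.inl j)) = 0)
    (h2 : ∀ i j, β (y (Sum.inl i)) (y (Sum.inr j)) = if i = j then 1 else 0)
    (h3 : ∀ i j, β (y (Sum.inr i)) (y (Sum.inr j)) = 0)
    (p r : MvPolynomial (Fin n ⊕ Fin n) ℂ) :
    β (MvPolynomial.aeval y p) (MvPolynomial.aeval y r) = MvPolynomial.aeval y (stdBr p r) := by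
  have h4 : ∀ i j, β (y (Sum.inr i)) (y (Sum.inl j)) = -if j = i then 1 else 0 := fun i j => by
    rw [h.anti, h2]
  have e1 : ∀ i, β (MvPolynomial.aeval y p) (y (Sum.inl i)) =
      -MvPolynomial.aeval y (MvPolynomial.pderiv (Sum.inr i) p) := fun i => by
    rw [h.anti, ← h.ad_apply, der_aeval]
    simp [h.ad_apply, Fintype.sum_sum_type, h1, h2]
  have e2 : ∀ i, β (MvPolynomial.aeval y p) (y (Sum.inr i)) =
      MvPolynomial.aeval y (MvPolynomial.pderiv (Sum.inl i) p) := fun i => by
    rw [h.anti, ← h.ad_apply, der_aeval]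
    simp [h.ad_apply, Fintype.sum_sum_type, h3, h4]
  rw [← h.ad_apply, der_aeval, Fintype.sum_sum_type, stdBr, map_sum, ← Finset.sum_add_distrib]
  refine Finset.sum_congr rfl fun i _ => ?_
  rw [h.ad_apply, h.ad_apply, e1, e2, map_sub, map_mul, map_mul]
  ring

/-- splitting an index set with a sign reversing involution -/
lemma exists_split {σ : Type} [Fintype σ] (dual : σ → σ) (sgn : σ → ℂ)
    (h1 : ∀ s, dual (dual s) = s) (h2 : ∀ s, sgn s * sgn s = 1)
    (h3 : ∀ s, sgn (dual s) = -sgn s) (n : ℕ) (hn : Fintype.card σ = 2 * n) :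
    ∃ E : Fin n ⊕ Fin n ≃ σ, (∀ i, sgn (E (Sum.inl i)) = 1) ∧
      ∀ i, E (Sum.inr i) = dual (E (Sum.inl i)) := by
  classical
  let P := {s : σ // sgn s = 1}
  let φ : P ⊕ P → σ := Sum.elim (fun s => s.1) fun s => dual s.1
  have hne : ∀ s t : P, s.1 ≠ dual t.1 := fun s t e => by
    have := s.2
    rw [e, h3, t.2] at this
    norm_num at this
  have hφ : Function.Bijective φ := by
    constructor
    · rintro (s | s) (t | t) e
      · exact congrArg _ (Subtype.ext e)
      · exact absurd e (hne s t)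
      · exact absurd e.symm (hne t s)
      · have e' : dual s.1 = dual t.1 := e
        exact congrArg _ (Subtype.ext (by rw [← h1 s.1, e', h1]))
    · intro s
      rcases mul_self_eq_one_iff.1 (h2 s) with hs | hs
      · exact ⟨Sum.inl ⟨s, hs⟩, rfl⟩
      · exact ⟨Sum.inr ⟨dual s, by rw [h3, hs, neg_neg]⟩, h1 s⟩
  have hc : Fintype.card P = n := by
    have := Fintype.card_of_bijective hφ
    rw [Fintype.card_sum, hn] at this
    omega
  let e := (Fintype.equivFinOfCardEq hc).symm
  exact ⟨(Equiv.sumCongr e e).trans (Equiv.ofBijective φ hφ), fun i => (e i).2, fun i => rfl⟩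

/-- integral elements of the field of fractions -/
lemma mem_of_integral [IsDomain O] (R A : Subalgebra ℂ O) (hRA : R ≤ A) [IsIntegrallyClosed A]
    (hA : ∀ f : O, ∃ u ∈ A, IsUnit u ∧ u * f ∈ A) (x : FractionRing O) (hx : IsIntegral R x) :
    ∃ y ∈ A, algebraMap O (FractionRing O) y = x := by
  have hinj : Function.Injective (algebraMap A (FractionRing O)) :=
    (IsFractionRing.injective O (FractionRing O)).comp Subtype.val_injective
  have : FaithfulSMul A (FractionRing O) := (faithfulSMul_iff_algebraMap_injective _ _).2 hinj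
  have : IsFractionRing A (FractionRing O) := IsFractionRing.of_field A _ fun z => by
    obtain ⟨a, b, -, rfl⟩ := IsFractionRing.div_surjective O z
    obtain ⟨u, hu, hu1, hu2⟩ := hA a
    obtain ⟨v, hv, hv1, hv2⟩ := hA b
    refine ⟨⟨v * (u * a), A.mul_mem hv hu2⟩, ⟨u * (v * b), A.mul_mem hu hv2⟩, ?_⟩
    change _ = algebraMap O (FractionRing O) (v * (u * a)) /
      algebraMap O (FractionRing O) (u * (v * b))
    have e1 : v * (u * a) = (u * v) * a := by ring
    have e2 : u * (v * b) = (u * v) * b := by ring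
    rw [e1, e2, map_mul _ (u * v), map_mul _ (u * v),
      mul_div_mul_left _ _ ((hu1.mul hv1).map _).ne_zero]
  have hx' : IsIntegral A x :=
    IsIntegral.map_of_comp_eq (Subalgebra.inclusion hRA).toRingHom (RingHom.id _) rfl hx
  obtain ⟨y, hy⟩ := (isIntegrallyClosed_iff (FractionRing O)).1 inferInstance hx'
  exact ⟨y, y.2, hy⟩

end general

section darb

variable {κ : Type} {σ : κ → Type} [∀ k, DecidableEq (σ k)] {Ot O : Type} [CommRing Ot]
  [Algebra ℂ Ot] [CommRing O] [Algebra ℂ O] (D : CData κ σ Ot O)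

/-- coordinates on the fibre -/
def x (k : κ) (s : σ k) : O := D.q (D.z k s)

lemma ccr_x (k : κ) (s t : σ k) :
    D.β (x D k s) (x D k t) = if t = D.dual k s then algebraMap ℂ O (D.sgn k s) else 0 := by
  rw [x, x, ← D.q_br, D.ccr]
  split_ifs
  · exact D.q.commutes _
  · exact map_zero _

/-- the dual derivations -/
noncomputable def co (k : κ) : Coord O (σ k) where
  d s := D.sgn k (D.dual k s) • D.p.ad (x D k (D.dual k s))
  z := x D k
  comm s t f := by
    have h0 : D.β (D.β (x D k (D.dual k s)) (x D k (D.dual k t))) f = 0 := by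
      rw [D.p.anti, ccr_x, ← D.p.ad_apply]
      split_ifs <;> simp
    simp only [Derivation.smul_apply, Derivation.map_smul]
    simp only [D.p.ad_apply]
    rw [D.p.leib (x D k (D.dual k s)), h0, zero_add, smul_comm]
  dz s t := by
    simp only [Derivation.smul_apply, D.p.ad_apply, ccr_x, D.dual_dual]
    split_ifs with h1 h2 h2
    · rw [Algebra.smul_def, ← map_mul, D.sgn_sq, map_one]
    · exact absurd h1.symm h2
    · exact absurd h2.symm h1
    · simp

lemma Ok_eq (k : κ) : D.Ok k = Algebra.adjoin ℂ (Set.range (x D k)) := by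
  rw [CData.Ok, CData.Otk, AlgHom.map_adjoin]
  refine le_antisymm (Algebra.adjoin_le ?_) (Algebra.adjoin_mono ?_)
  · rintro _ ⟨f, ⟨s, rfl⟩ | rfl, rfl⟩
    · exact Algebra.subset_adjoin ⟨s, rfl⟩
    · rw [D.q_H]
      exact Subalgebra.zero_mem _
  · rintro _ ⟨s, rfl⟩
    exact ⟨_, Or.inl ⟨s, rfl⟩, rfl⟩

/-- the inverted coordinates -/
def inv (k : κ) : Set O := {w | ∃ l, k ≠ l ∧ w = D.q (D.a l k)}

lemma inv_spec (k : κ) : ∀ w ∈ inv D k, ∃ s, x D k s * w = 1 := by
  rintro _ ⟨l, hl, rfl⟩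
  exact ⟨D.pos k l hl, by rw [x, ← D.a_eq, ← map_mul, D.a_mul, D.a_self, map_one]⟩

lemma mem_all (k : κ) (f : O) : f ∈ Algebra.adjoin ℂ (Set.range (x D k) ∪ inv D k) := by
  obtain ⟨g, rfl⟩ := D.q_surj f
  have hg : g ∈ Algebra.adjoin ℂ (Set.range (D.z k) ∪ {D.H} ∪ Set.range fun l => D.a l k) := by
    rw [D.gen]; trivial
  have : (Algebra.adjoin ℂ (Set.range (D.z k) ∪ {D.H} ∪ Set.range fun l => D.a l k)).map D.q ≤
      Algebra.adjoin ℂ (Set.range (x D k) ∪ inv D k) := by
    rw [AlgHom.map_adjoin]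
    refine Algebra.adjoin_le ?_
    rintro _ ⟨f, (⟨s, rfl⟩ | rfl) | ⟨l, rfl⟩, rfl⟩
    · exact Algebra.subset_adjoin (Or.inl ⟨s, rfl⟩)
    · rw [D.q_H]
      exact Subalgebra.zero_mem _
    · by_cases hl : k = l
      · subst hl
        simp only [D.a_self, map_one]
        exact Subalgebra.one_mem _
      · exact Algebra.subset_adjoin (Or.inr ⟨l, hl, rfl⟩)
  exact this ⟨g, hg, rfl⟩

lemma clear_den (k : κ) (f : O) : ∃ u ∈ D.Ok k, IsUnit u ∧ u * f ∈ D.Ok k := by
  have hx : ∀ s, x D k s ∈ D.Ok k := fun s => by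
    rw [Ok_eq]; exact Algebra.subset_adjoin ⟨s, rfl⟩
  induction mem_all D k f using Algebra.adjoin_induction with
  | mem f hf =>
    rcases hf with ⟨s, rfl⟩ | hf
    · exact ⟨1, one_mem _, isUnit_one, by rw [one_mul]; exact hx s⟩
    · obtain ⟨s, hs⟩ := inv_spec D k f hf
      exact ⟨x D k s, hx s, IsUnit.of_mul_eq_one _ hs, by rw [hs]; exact one_mem _⟩
  | algebraMap c => exact ⟨1, one_mem _, isUnit_one, by rw [one_mul]; exact algebraMap_mem _ c⟩
  | add f g _ _ hf hg =>
    obtain ⟨u, hu, hu1, hu2⟩ := hf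
    obtain ⟨v, hv, hv1, hv2⟩ := hg
    refine ⟨u * v, mul_mem hu hv, hu1.mul hv1, ?_⟩
    have : u * v * (f + g) = v * (u * f) + u * (v * g) := by ring
    rw [this]
    exact add_mem (mul_mem hv hu2) (mul_mem hu hv2)
  | mul f g _ _ hf hg =>
    obtain ⟨u, hu, hu1, hu2⟩ := hf
    obtain ⟨v, hv, hv1, hv2⟩ := hg
    refine ⟨u * v, mul_mem hu hv, hu1.mul hv1, ?_⟩
    have : u * v * (f * g) = (u * f) * (v * g) := by ring
    rw [this]
    exact mul_mem hu2 hv2

lemma indep (hA : RowAlg) (k : κ) : AlgebraicIndependent ℂ (x D k) :=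
  have := D.nontriv
  hA O (σ k) (co D k).d (x D k) (co D k).dz

lemma exists_equiv (hA : RowAlg) (k : κ) [Fintype (σ k)] (n : ℕ)
    (hn : Fintype.card (σ k) = 2 * n) :
    ∃ e : D.Ok k ≃ₐ[ℂ] MvPolynomial (Fin n ⊕ Fin n) ℂ,
      ∀ f g h : D.Ok k, (h : O) = D.β f g → e h = stdBr (e f) (e g) := by
  obtain ⟨E, hE1, hE2⟩ := exists_split (D.dual k) (D.sgn k) (D.dual_dual k) (D.sgn_sq k)
    (D.sgn_dual k) n hn
  have hy : AlgebraicIndependent ℂ (x D k ∘ E) := (indep D hA k).comp E E.injective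
  have hO : D.Ok k = Algebra.adjoin ℂ (Set.range (x D k ∘ E)) := by
    rw [Ok_eq, E.surjective.range_comp]
  let e := (Subalgebra.equivOfEq _ _ hO).trans hy.aevalEquiv.symm
  have he : ∀ f : D.Ok k, MvPolynomial.aeval (x D k ∘ E) (e f) = f := fun f =>
    hy.aeval_repr (Subalgebra.equivOfEq _ _ hO f)
  refine ⟨e, fun f g h hh => algebraicIndependent_iff_injective_aeval.1 hy ?_⟩
  rw [he, hh, ← br_aeval D.p, he, he]
  · intro i j
    simp only [Function.comp_apply, ccr_x, ← hE2]
    rw [if_neg (by simp)]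
  · intro i j
    simp only [Function.comp_apply, ccr_x, ← hE2, hE1, map_one]
    simp [eq_comm]
  · intro i j
    have : D.dual k (E (Sum.inr i)) = E (Sum.inl i) := by rw [hE2, D.dual_dual]
    simp only [Function.comp_apply, ccr_x, this]
    rw [if_neg (by simp)]

end darb

theorem rowISO : RowPOIN → RowISO := by
  rintro ⟨-, -, h0, hA⟩ κ _ _ _ σ _ _ Ot O _ _ _ _ D n hn
  have he := fun k => exists_equiv D hA k n (hn k)
  have := D.nontriv
  have hdom : IsDomain O := by
    obtain ⟨k⟩ := ‹Nonempty κ›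
    obtain ⟨e, -⟩ := he k
    have : IsDomain (D.Ok k) := e.toMulEquiv.isDomain _
    have : NoZeroDivisors O := ⟨fun {f g} hfg => by
      obtain ⟨u, -, hu1, hu2⟩ := clear_den D k f
      obtain ⟨v, -, hv1, hv2⟩ := clear_den D k g
      have : (⟨u * f, hu2⟩ * ⟨v * g, hv2⟩ : D.Ok k) = 0 := Subtype.ext (by
        change u * f * (v * g) = 0
        linear_combination (u * v) * hfg)
      rcases mul_eq_zero.1 this with h | h
      · exact Or.inl ((hu1.mul_right_eq_zero).1 (congrArg Subtype.val h))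
      · exact Or.inr ((hv1.mul_right_eq_zero).1 (congrArg Subtype.val h))⟩
    exact NoZeroDivisors.to_isDomain O
  refine ⟨hdom, ?_, he, fun k f hf => ?_, fun k p hp => ?_⟩
  · have hinj : Function.Injective
        (algebraMap (⨅ k, D.Ok k : Subalgebra ℂ O) (FractionRing O)) :=
      (IsFractionRing.injective O (FractionRing O)).comp Subtype.val_injective
    have : FaithfulSMul (⨅ k, D.Ok k : Subalgebra ℂ O) (FractionRing O) :=
      (faithfulSMul_iff_algebraMap_injective _ _).2 hinj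
    have : IsIntegrallyClosedIn (⨅ k, D.Ok k : Subalgebra ℂ O) (FractionRing O) := by
      refine isIntegrallyClosedIn_iff.2 ⟨hinj, fun {w} hw => ?_⟩
      have h1 : ∀ k, ∃ y ∈ D.Ok k, algebraMap O (FractionRing O) y = w := fun k => by
        obtain ⟨e, -⟩ := he k
        have : IsIntegrallyClosed (D.Ok k) := IsIntegrallyClosed.of_equiv e.symm.toRingEquiv
        exact mem_of_integral _ _ (iInf_le _ k) (clear_den D k) w hw
      obtain ⟨k0⟩ := ‹Nonempty κ›
      obtain ⟨y, -, hy⟩ := h1 k0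
      refine ⟨⟨y, Algebra.mem_iInf.2 fun k => ?_⟩, hy⟩
      obtain ⟨y', hy1, hy2⟩ := h1 k
      rwa [IsFractionRing.injective O (FractionRing O) (hy.trans hy2.symm)]
    exact IsIntegrallyClosed.of_isIntegrallyClosedIn _ (FractionRing O)
  · refine (h0 O (σ k) (co D k) (inv D k) (inv_spec D k) f (mem_all D k f)).2 fun s => ?_
    change (D.sgn k (D.dual k s) • D.p.ad (x D k (D.dual k s))) f = 0
    rw [Derivation.smul_apply, D.p.ad_apply, D.p.anti, x, hf, neg_zero, smul_zero]
  · exact algebraicIndependent_iff.1 (indep D hA k) p hp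

end Pool.Agent.MP_86c931_ag.H57
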